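import Mathlib
import Pool.Agent.N119.PS.Stm2

set_option autoImplicit false

/-!
# Project PSC2, part KLD (helper531): bounded relative entropy of Markov measures
-/

namespace Pool.Agent.N531.PSC.KLD

open Pool.Agent.N119.PS Pool.Agent.H472R3 Pool.Agent.H67R3.FSR Pool.Agent.H67R4.SR Finset

variable {N : ℕ}

/-! ### Words -/

theorem red_left {A B : List (Lt N)} (h : FreeGroup.IsReduced (A ++ B)) :
    FreeGroup.IsReduced A := List.IsChain.left_of_append h

theorem red_right {A B : List (Lt N)} (h : FreeGroup.IsReduced (A ++ B)) :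
    FreeGroup.IsReduced B := List.IsChain.right_of_append h

theorem toWord_ini (e : FreeGroup (Fin N)) : (ini e).toWord = e.toWord.dropLast := by
  apply toWord_mk_red
  rw [List.dropLast_eq_take]
  apply red_left (B := e.toWord.drop (e.toWord.length - 1))
  rw [List.take_append_drop]
  exact FreeGroup.isReduced_toWord

theorem toWord_tl (e : FreeGroup (Fin N)) : (tl e).toWord = e.toWord.tail := by
  apply toWord_mk_red
  rw [← List.drop_one]
  apply red_right (A := e.toWord.take 1)
  rw [List.take_append_drop]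
  exact FreeGroup.isReduced_toWord

theorem norm_ini (e : FreeGroup (Fin N)) : (ini e).norm = e.norm - 1 := by
  unfold FreeGroup.norm
  rw [toWord_ini, List.length_dropLast]

theorem norm_tl (e : FreeGroup (Fin N)) : (tl e).norm = e.norm - 1 := by
  unfold FreeGroup.norm
  rw [toWord_tl, List.length_tail]

theorem split {e : FreeGroup (Fin N)} (he : 2 ≤ e.norm) :
    ∃ t v w : FreeGroup (Fin N), FreeGroup.IsReduced (t.toWord ++ v.toWord ++ w.toWord) ∧
      v.norm = e.norm - 2 ∧ e = t * v * w ∧ ini e = t * v ∧ tl e = v * w ∧ ini (tl e) = v := by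
  obtain ⟨a, M, b, hL⟩ : ∃ a M b, e.toWord = [a] ++ M ++ [b] := by
    unfold FreeGroup.norm at he
    rcases h : e.toWord with _ | ⟨a, _ | ⟨c, L⟩⟩
    · rw [h] at he; simp at he
    · rw [h] at he; simp at he
    · refine ⟨a, (c :: L).dropLast, (c :: L).getLast (by simp), ?_⟩
      rw [List.append_assoc, List.dropLast_append_getLast, List.singleton_append]
  have hred : FreeGroup.IsReduced ([a] ++ M ++ [b]) := by
    rw [← hL]; exact FreeGroup.isReduced_toWord
  have ha : (FreeGroup.mk [a] : FreeGroup (Fin N)).toWord = [a] := toWord_mk_red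
    FreeGroup.IsReduced.singleton
  have hb : (FreeGroup.mk [b] : FreeGroup (Fin N)).toWord = [b] := toWord_mk_red
    FreeGroup.IsReduced.singleton
  have hM : (FreeGroup.mk M : FreeGroup (Fin N)).toWord = M := toWord_mk_red
    (red_right (A := [a]) (red_left (B := [b]) hred))
  have he2 : e = FreeGroup.mk ([a] ++ M ++ [b]) := by rw [← hL, FreeGroup.mk_toWord]
  have htl : tl e = FreeGroup.mk (M ++ [b]) := by
    unfold tl
    rw [hL]
    simp
  refine ⟨FreeGroup.mk [a], FreeGroup.mk M, FreeGroup.mk [b], ?_, ?_, ?_, ?_, ?_, ?_⟩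
  · rw [ha, hb, hM]; exact hred
  · unfold FreeGroup.norm
    rw [hM, hL]
    simp
  · rw [he2, FreeGroup.mul_mk, FreeGroup.mul_mk]
  · unfold ini
    rw [hL, List.dropLast_concat, FreeGroup.mul_mk]
  · rw [htl, FreeGroup.mul_mk]
  · unfold ini
    rw [toWord_tl, hL]
    simp

/-! ### Sums over spheres -/

theorem fib (n : ℕ) (π : FreeGroup (Fin N) → FreeGroup (Fin N)) (m f : FreeGroup (Fin N) → ℝ)
    (hπ : ∀ e, e.norm = n + 1 → (π e).norm = n)
    (h : ∀ v : FreeGroup (Fin N),
      ∑ e ∈ (sph N (v.norm + 1)).filter (fun e => π e = v), m e = m v) :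
    ∑ e ∈ sph N (n + 1), m e * f (π e) = ∑ v ∈ sph N n, m v * f v := by
  rw [← Finset.sum_fiberwise_of_maps_to (s := sph N (n + 1)) (t := sph N n) (g := π)]
  · apply Finset.sum_congr rfl
    intro v hv
    rw [mem_sph] at hv
    have h1 := h v
    rw [hv] at h1
    rw [← h1, Finset.sum_mul]
    apply Finset.sum_congr rfl
    intro e he
    rw [Finset.mem_filter] at he
    rw [he.2]
  · intro e he
    rw [mem_sph] at he ⊢
    exact hπ e he

theorem t : S_KLD := by
  intro N m p k hk hm hp H1 H2 H3 H4 H5 ⟨B, hB⟩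
  obtain ⟨lam, hlam⟩ : ∃ lam : FreeGroup (Fin N) → ℝ,
    ∀ u, lam u = Real.log (m u) - Real.log (p u) := ⟨_, fun _ => rfl⟩
  obtain ⟨rho, hrho⟩ : ∃ rho : FreeGroup (Fin N) → ℝ, ∀ e, rho e = lam e - lam (ini e) :=
    ⟨_, fun _ => rfl⟩
  obtain ⟨D, hD⟩ : ∃ D : ℕ → ℝ, ∀ n, D n = ∑ u ∈ sph N n, m u * lam u := ⟨_, fun _ => rfl⟩
  obtain ⟨Del, hDel⟩ : ∃ Del : ℕ → ℝ, ∀ n, Del n = ∑ e ∈ sph N n, m e * rho e :=
    ⟨_, fun _ => rfl⟩
  have hnini : ∀ n, ∀ e : FreeGroup (Fin N), e.norm = n + 1 → (ini e).norm = n := by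
    intro n e he; rw [norm_ini, he]; omega
  have hntl : ∀ n, ∀ e : FreeGroup (Fin N), e.norm = n + 1 → (tl e).norm = n := by
    intro n e he; rw [norm_tl, he]; omega
  -- step 1
  have s1 : ∀ n, D (n + 1) - D n = Del (n + 1) := by
    intro n
    rw [hD, hD, hDel, ← fib n ini m lam (hnini n) H1, ← Finset.sum_sub_distrib]
    apply Finset.sum_congr rfl
    intro e _
    rw [hrho]; ring
  -- step 2
  have s2 : ∀ e : FreeGroup (Fin N), k + 2 ≤ e.norm → rho e = rho (tl e) := by
    intro e he
    obtain ⟨t, v, w, h1, h2, h3, h4, h5, h6⟩ := split (e := e) (by omega)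
    have hv : k ≤ v.norm := by omega
    have q : ∀ f : FreeGroup (Fin N) → ℝ, (∀ u, 0 < f u) →
        f (t * v * w) * f v = f (t * v) * f (v * w) →
        Real.log (f e) + Real.log (f v) = Real.log (f (ini e)) + Real.log (f (tl e)) := by
      intro f hf hfe
      rw [← Real.log_mul (hf _).ne' (hf _).ne', ← Real.log_mul (hf _).ne' (hf _).ne', h4, h5,
        ← hfe, ← h3]
    have q1 := q m hm (H4 t v w hv h1)
    have q2 := q p hp (H5 t v w hv h1)
    rw [hrho, hrho, h6, hlam, hlam, hlam, hlam]
    linarith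
  -- step 3
  have s3 : ∀ n, k + 1 ≤ n → Del (n + 1) = Del n := by
    intro n hn
    rw [hDel, hDel, ← fib n tl m rho (hntl n) H2]
    apply Finset.sum_congr rfl
    intro e he
    rw [mem_sph] at he
    rw [s2 e (by omega)]
  have s3' : ∀ j, Del (k + 1 + j) = Del (k + 1) := by
    intro j
    induction j with
    | zero => rfl
    | succ j ih => rw [← add_assoc, s3 _ (by omega), ih]
  -- step 4
  have s4 : ∀ j : ℕ, D (k + j) = D k + j * Del (k + 1) := by
    intro j
    induction j with
    | zero => simp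
    | succ j ih =>
      have h1 := s1 (k + j)
      have h2 := s3' j
      have h3 : k + 1 + j = k + j + 1 := by ring
      rw [h3] at h2
      rw [h2] at h1
      rw [← add_assoc]
      push_cast
      linarith
  have s4' : Del (k + 1) ≤ 0 := by
    by_contra hcon
    rw [not_le] at hcon
    obtain ⟨j, hj⟩ := exists_nat_gt ((B - D k) / Del (k + 1))
    rw [div_lt_iff₀ hcon] at hj
    have h1 := s4 j
    have h2 : D (k + j) ≤ B := by
      rw [hD]
      have := hB (k + j)
      simpa only [hlam] using this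
    linarith
  -- step 5
  obtain ⟨y, hy⟩ : ∃ y : FreeGroup (Fin N) → ℝ,
    ∀ e, y e = (p e / p (ini e)) / (m e / m (ini e)) := ⟨_, fun _ => rfl⟩
  have hypos : ∀ e, 0 < y e := by
    intro e
    rw [hy]
    have := hp e
    have := hp (ini e)
    have := hm e
    have := hm (ini e)
    positivity
  have hylog : ∀ e, Real.log (y e) = - rho e := by
    intro e
    rw [hy, hrho, hlam, hlam, Real.log_div (div_pos (hp _) (hp _)).ne' (div_pos (hm _) (hm _)).ne',
      Real.log_div (hp _).ne' (hp _).ne', Real.log_div (hm _).ne' (hm _).ne']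
    ring
  have s5 : ∑ e ∈ sph N (k + 1), m e * (1 - y e) = 0 := by
    have h1 : ∑ e ∈ sph N (k + 1), m e * (1 - y e) = ∑ e ∈ sph N (k + 1), m e * 1 -
        ∑ e ∈ sph N (k + 1), p e * (m (ini e) / p (ini e)) := by
      rw [← Finset.sum_sub_distrib]
      apply Finset.sum_congr rfl
      intro e _
      rw [hy]
      have h2 := (hp e).ne'
      have h3 := (hp (ini e)).ne'
      have h4 := (hm e).ne'
      have h5 := (hm (ini e)).ne'
      field_simp
    rw [h1, fib k ini m (fun _ => 1) (hnini k) H1, fib k ini p (fun v => m v / p v) (hnini k) H3,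
      ← Finset.sum_sub_distrib]
    apply Finset.sum_eq_zero
    intro v _
    have := (hp v).ne'
    field_simp
    ring
  have hterm : ∀ e, 0 ≤ m e * (rho e - (1 - y e)) := by
    intro e
    have h1 := Real.log_le_sub_one_of_pos (hypos e)
    rw [hylog] at h1
    exact mul_nonneg (hm e).le (by linarith)
  have hsum : ∑ e ∈ sph N (k + 1), m e * (rho e - (1 - y e)) = Del (k + 1) := by
    rw [hDel, ← sub_zero (∑ e ∈ sph N (k + 1), m e * rho e), ← s5, ← Finset.sum_sub_distrib]
    apply Finset.sum_congr rfl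
    intro e _
    ring
  have hzero : ∑ e ∈ sph N (k + 1), m e * (rho e - (1 - y e)) = 0 :=
    le_antisymm (by rw [hsum]; exact s4') (Finset.sum_nonneg fun e _ => hterm e)
  have s5' : ∀ e : FreeGroup (Fin N), e.norm = k + 1 → rho e = 0 := by
    intro e he
    have h1 := (Finset.sum_eq_zero_iff_of_nonneg fun e _ => hterm e).1 hzero e
      (mem_sph.2 he)
    have h2 : rho e - (1 - y e) = 0 := (mul_eq_zero.1 h1).resolve_left (hm e).ne'
    by_cases h3 : y e = 1
    · rw [h3] at h2; linarith
    · have h4 := Real.log_lt_sub_one_of_pos (hypos e) h3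
      rw [hylog] at h4
      linarith
  -- step 6
  have s6 : ∀ j : ℕ, ∀ e : FreeGroup (Fin N), e.norm = k + 1 + j → rho e = 0 := by
    intro j
    induction j with
    | zero => intro e he; exact s5' e he
    | succ j ih =>
      intro e he
      rw [s2 e (by omega)]
      exact ih _ (by rw [norm_tl, he]; omega)
  obtain ⟨K, hK⟩ : ∃ K : ℝ, K = ∑ u ∈ (finite_norm_le (N := N) k).toFinset, |lam u| := ⟨_, rfl⟩
  refine ⟨K, ?_⟩
  have hfin : ∀ n, ∀ u : FreeGroup (Fin N), u.norm = n → |lam u| ≤ K := by
    intro n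
    induction n using Nat.strong_induction_on with
    | _ n ih =>
      intro u hu
      by_cases h : n ≤ k
      · rw [hK]
        exact Finset.single_le_sum (f := fun u => |lam u|) (fun v _ => abs_nonneg _)
          (by rw [Set.Finite.mem_toFinset]; show u.norm ≤ k; omega)
      · have h1 := s6 (n - (k + 1)) u (by omega)
        rw [hrho] at h1
        have h2 : lam u = lam (ini u) := by linarith
        rw [h2]
        exact ih (n - 1) (by omega) (ini u) (by rw [norm_ini, hu])
  intro u
  have := hfin _ u rfl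
  rwa [hlam] at this

end Pool.Agent.N531.PSC.KLD
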